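import Pool.Agent.Lib_helper76.AO.ChordFinal
import Pool.Agent.Lib_helper76.AO.FinCentral

set_option autoImplicit false

/-!
# Artin groups with finite outer automorphism group: FC type, chordal graphs

Let `M` be a Coxeter matrix on a finite set `S` (`M s t = 0` stands for `∞`), `A_M` its Artin group
and `Γ_M` the graph on `S` in which `s ≠ t` are adjacent when `M s t` is finite.  Suppose that
`Γ_M` is chordal and that every non-empty irreducible clique of `Γ_M` is of finite type (this is
the case if `M` is of FC type), or at least generates a subgroup of `A_M` with a central element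
of non-zero degree.  If `Out(A_M)` is finite, then one of the following holds.

* `Γ_M` is complete and any two vertices are joined by a path of odd labels.
* At least half of the vertices are joined to all others (`Full`), and every vertex `s` has an
  associated vertex `β s` which is not joined to all others, where `β y = y` for every vertex `y`
  not joined to all others, such that all labels between different fibres of `β` are two, except
  labels `∞` between vertices `y = β y`, `z = β z`; the fibre of `y` is irreducible and contains
  an odd neighbour of `y`, and the vertices not joined to `y` span a connected graph.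
-/

namespace Pool.Agent.Results.MP_a3a325_al.ChordalGraphs

open Pool.MP_a3a325_al

theorem result {S : Type*} [Fintype S] [DecidableEq S] (M : CoxeterMatrix S)
    (hch : Chordal (artinGraph M))
    (hFC : ∀ T : Set S, T.Nonempty → (∀ s ∈ T, ∀ t ∈ T, M s t ≠ 0) → IrredSet M T →
      FiniteType M T ∨ HasCentralElement M T)
    (h : FiniteOut (ArtinGroup M)) :
    (∀ s t, M s t ≠ 0 ∧ Relation.ReflTransGen (fun a b => Odd (M a b)) s t) ∨
    (Nat.card S ≤ 2 * Nat.card {s // Full M s} ∧
    ∃ β : S → S, (∀ s, ¬ Full M (β s)) ∧ (∀ s, ¬ Full M s → β s = s) ∧
      (∀ s t, β s ≠ β t → M s t = 2 ∨ (β s = s ∧ β t = t ∧ M s t = 0)) ∧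
      (∀ y, ¬ Full M y → IrredSet M {s | β s = y} ∧
        (∃ u, u ≠ y ∧ β u = y ∧ Odd (M y u)) ∧
        ((artinGraph M).induce {s | M y s = 0}).Preconnected)) := by
  refine chordal_dichotomy h ?_ hch
  intro T hne hclq hirr
  rcases hFC T hne hclq hirr with h1 | h1
  · exact hasCentral_of_finiteType M T hne hclq h1
  · exact h1

end Pool.Agent.Results.MP_a3a325_al.ChordalGraphs
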