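import Pool.Agent.Lib_helper76.AO.Defs
import Pool.Agent.Lib_helper76.AO.EdgeCut
import Pool.Agent.Lib_helper76.AO.FinDefs
import Pool.Agent.Lib_helper76.AO.CoxInf
import Pool.Agent.Lib_helper76.AM.Exc

set_option autoImplicit false

/-!
# Artin groups with finite outer automorphism group: separating sets

Let `M` be a Coxeter matrix on a finite set `S` (`M s t = 0` stands for `∞`), `A_M` its Artin group
and `Γ_M` the graph on `S` in which `s ≠ t` are adjacent when `M s t` is finite.  The matrices such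
that `Out(A_M)` is finite and `Γ_M` is disconnected or separated by a vertex or an edge are exactly
those of one family of rank four.  If `Out(A_M)` is finite, then `Γ_M` is separated by no
irreducible set `T` of vertices which is of finite type (its Coxeter group is finite), or such that
`⟨T⟩` has a central element of non-zero degree; and if `|S| = 2`, the label is odd.
-/

namespace Pool.Agent.Results.MP_a3a325_al.SeparatingSets

open Pool.MP_a3a325_al

/-- The exceptional matrices of rank four: `S = {v, w, c, d}`, the labels of `vw`, `vc`, `wd` are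
two, those of `wc` and `vd` are odd, and that of `cd` is infinite. -/
def Exceptional {S : Type*} (M : CoxeterMatrix S) (v w : S) : Prop :=
  ∃ c d : S, c ≠ w ∧ d ≠ v ∧ (∀ s, s = v ∨ s = w ∨ s = c ∨ s = d) ∧
    M v w = 2 ∧ M c v = 2 ∧ M d w = 2 ∧ Odd (M c w) ∧ Odd (M d v) ∧ M c d = 0

/-- `Γ_M` is disconnected, or separated by a vertex or by (the two ends of) an edge. -/
def SmallCut {S : Type*} (M : CoxeterMatrix S) : Prop :=
  ¬ (artinGraph M).Preconnected ∨
    (∃ v : S, ¬ ((artinGraph M).induce ({v} : Set S)ᶜ).Preconnected) ∨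
    ∃ v w : S, v ≠ w ∧ M v w ≠ 0 ∧ ¬ ((artinGraph M).induce ({v, w} : Set S)ᶜ).Preconnected

theorem result {S : Type*} [Fintype S] [DecidableEq S] (M : CoxeterMatrix S) :
    ((FiniteOut (ArtinGroup M) ∧ SmallCut M) ↔ ∃ v w : S, Exceptional M v w) ∧
    (FiniteOut (ArtinGroup M) → ∀ T : Set S, IrredSet M T →
      (FiniteType M T ∨ HasCentralElement M T) →
      ((artinGraph M).induce Tᶜ).Preconnected) ∧
    (FiniteOut (ArtinGroup M) → Fintype.card S = 2 → ∀ s t : S, s ≠ t → Odd (M s t)) := by
  refine ⟨⟨?_, ?_⟩, ?_, fun h => rank_two M h⟩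
  · rintro ⟨h, h1 | ⟨v, h1⟩ | ⟨v, w, hne, hvw, h1⟩⟩
    · exact absurd (graph_connected M h) h1
    · exact absurd (no_cut_vertex M h v) h1
    · rcases cut_edge M h v w hne hvw with h2 | ⟨h2, c, d, a1, a2, a3, a4, a5, a6, a7, a8⟩
      · exact absurd h2 h1
      · exact ⟨v, w, c, d, a1, a2, a3, h2, a4, a5, a6, a7, a8⟩
  · rintro ⟨v, w, c, d, a1, a2, a3, a4, a5, a6, a7, a8, a9⟩
    refine ⟨Am.exc_finiteOut M a1 a2 a3 a4 a5 a6 a7 a8 a9, Or.inr (Or.inr ⟨v, w, ?_, ?_, ?_⟩)⟩
    · rintro rfl
      rw [M.diagonal] at a4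
      omega
    · rw [a4]; norm_num
    · exact Am.exc_not_preconnected M a1 a2 a3 a5 a6 a9
  · intro h T hirr hT
    rcases T.eq_empty_or_nonempty with hT0 | hne
    · subst hT0
      rintro ⟨x, hx⟩ ⟨y, hy⟩
      have h1 := graph_connected M h x y
      exact h1.map ⟨fun z => (⟨z, id⟩ : ((∅ : Set S)ᶜ : Set S)), fun hab => hab⟩
    · obtain ⟨z, hz, hcomm, hdeg⟩ : HasCentralElement M T :=
        hT.elim (fun h1 => finiteType_central M T hne h1) id
      exact no_cut_set M h T z hz hcomm hdeg hirr

end Pool.Agent.Results.MP_a3a325_al.SeparatingSets
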