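import Pool.Agent.Lib_helper76.AO.Defs
import Pool.Agent.Lib_helper76.AO.Separate
import Pool.Agent.Lib_helper76.AO.FinDefs
import Pool.Agent.Lib_helper76.AO.CoxInf

set_option autoImplicit false

/-!
# Artin groups with finite outer automorphism group: separating stars

Let `M` be a Coxeter matrix on a finite set `S` (`M s t = 0` stands for `∞`), `A_M` its Artin group
and `Γ_M` the graph on `S` in which `s ≠ t` are adjacent when `M s t` is finite.  If `Out(A_M)` is
finite, then for every irreducible set `T` of vertices which is of finite type (its Coxeter group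
is finite; for instance, a vertex, or an edge with label at least three), or such that `⟨T⟩` has a
central element of non-zero degree, the graph `Γ_M` without `T` and `T^⊥` is connected, where
`T^⊥` is the set of the vertices outside `T` joined to every vertex of `T` by an edge with label
two.
-/

namespace Pool.Agent.Results.MP_a3a325_al.StarSeparation

open Pool.MP_a3a325_al

theorem result {S : Type*} [Fintype S] [DecidableEq S] (M : CoxeterMatrix S)
    (h : FiniteOut (ArtinGroup M)) :
    (∀ T : Set S, IrredSet M T → (FiniteType M T ∨ HasCentralElement M T) →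
      ((artinGraph M).induce (T ∪ perp M T)ᶜ).Preconnected) ∧
    (∀ v : S, ((artinGraph M).induce ({v} ∪ perp M {v} : Set S)ᶜ).Preconnected) ∧
    (∀ v w : S, 3 ≤ M v w →
      ((artinGraph M).induce ({v, w} ∪ perp M {v, w} : Set S)ᶜ).Preconnected) := by
  have key : ∀ T : Set S, IrredSet M T → HasCentralElement M T →
      ((artinGraph M).induce (T ∪ perp M T)ᶜ).Preconnected := by
    rintro T hirr ⟨z, hz, hcomm, hdeg⟩
    exact no_cut_star M h T z hz hcomm hdeg hirr
  refine ⟨fun T hirr hT => ?_, fun v => key _ (irredSet_singleton M v) (hasCentral_singleton M v),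
    fun v w hvw => key _ (irredSet_pair M v w hvw) (hasCentral_pair M v w hvw)⟩
  rcases T.eq_empty_or_nonempty with hT0 | hne
  · subst hT0
    rintro ⟨x, hx⟩ _
    exact absurd (Or.inr ⟨Set.notMem_empty x, fun t ht => absurd ht (Set.notMem_empty t)⟩) hx
  · exact key T hirr (hT.elim (fun h1 => finiteType_central M T hne h1) id)

end Pool.Agent.Results.MP_a3a325_al.StarSeparation
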