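import Pool.Agent.Lib_helper76.AO.Defs
import Pool.Agent.Lib_helper76.AO.Transv
import Pool.Agent.Lib_helper76.AO.FinDefs
import Pool.Agent.Lib_helper76.AO.CoxInf

set_option autoImplicit false

/-!
# Artin groups with finite outer automorphism group: transvections

Let `M` be a Coxeter matrix on a finite set `S` (`M s t = 0` stands for `∞`) and `A_M` its Artin
group, with `Out(A_M)` finite.

If `M` is of finite type (the Coxeter group is finite), or if `A_M` has a central element of
non-zero degree, then any two vertices are joined by a path of odd labels, so that all generators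
are conjugate.

Let `T` be a non-empty set of vertices of finite type, or such that `⟨T⟩` has a central element of
non-zero degree.  Then there
is no non-empty set `C` of vertices, disjoint from `T` and closed under odd labels, such that for
each `s` in `C` all other vertices with a finite label at `s` lie in `T ∪ T^⊥`, and `s` lies in
`T^⊥` unless all finite labels at `s` are two.
-/

namespace Pool.Agent.Results.MP_a3a325_al.Transvections

open Pool.MP_a3a325_al

theorem result {S : Type*} [Fintype S] [DecidableEq S] (M : CoxeterMatrix S)
    (h : FiniteOut (ArtinGroup M)) :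
    (FiniteType M Set.univ ∨ HasCentralElement M Set.univ →
      ∀ s t : S, Relation.ReflTransGen (fun a b => Odd (M a b)) s t) ∧
    (∀ T : Set S, (T.Nonempty ∧ FiniteType M T) ∨ HasCentralElement M T →
      ¬ ∃ C : Set S, C.Nonempty ∧ Disjoint T C ∧ (∀ s ∈ C, ∀ t, Odd (M s t) → t ∈ C) ∧
        (∀ s ∈ C, ∀ t, s ≠ t → M s t ≠ 0 → t ∈ T ∪ perp M T) ∧
        (∀ s ∈ C, (∀ t, s ≠ t → M s t ≠ 0 → M s t = 2) ∨ s ∈ perp M T)) := by
  refine ⟨?_, ?_⟩
  · intro hc s t
    have hcu : HasCentralElement M Set.univ :=
      hc.elim (fun h1 => finiteType_central M Set.univ ⟨s, trivial⟩ h1) id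
    have h1 := central_odd M h hcu s t
    rw [SimpleGraph.reachable_iff_reflTransGen] at h1
    have h2 : ∀ a b, (oddGraph M).Adj a b → Odd (M a b) := fun a b hab => hab.2
    exact Relation.ReflTransGen.mono h2 s t h1
  · rintro T hT ⟨C, hC, hTC, hodd, hnb, hself⟩
    have hT' : HasCentralElement M T :=
      hT.elim (fun h1 => finiteType_central M T h1.1 h1.2) id
    exact no_dominated_set M h T hT' C hC hTC hodd hnb hself

end Pool.Agent.Results.MP_a3a325_al.Transvections
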